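import Pool.Statements.S09483
import Pool.Agent.H77.Cov.Lower
import Pool.Agent.H77.Cov.Cover2

set_option autoImplicit false
open MeasureTheory
open Pool Pool.MP_736e6a_co

namespace Pool.Agent.S09483

/-- The infimum of the areas of convex plane sets containing a translate of every plane set of diameter 1 equals pi/6 + 2*sqrt(3) - 3. -/
theorem result :
    sInf {a : ENNReal | ∃ K : Set (EuclideanSpace ℝ (Fin 2)), Convex ℝ K ∧
      (∀ S : Set (EuclideanSpace ℝ (Fin 2)), EMetric.diam S = 1 →
        ∃ v : EuclideanSpace ℝ (Fin 2), (fun x => x + v) '' S ⊆ K) ∧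
      volume K = a}
      = ENNReal.ofReal (Real.pi / 6 + 2 * Real.sqrt 3 - 3) := by
  apply le_antisymm
  · apply sInf_le
    exact Pool.Agent.H77.Cov.cov_upper
  · apply le_sInf
    rintro a ⟨K, hK, hcov, rfl⟩
    exact Pool.Agent.H77.Cov.lower hK hcov

end Pool.Agent.S09483
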