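import Pool.Statements.S10533
import Pool.Agent.H44.Danzer.Conv
import Pool.Graph.R_pool_sql_team_ae5b0c61.Results.MP_a382a5_co.Lower

set_option autoImplicit false
open Pool Pool.MP_a382a5_co

namespace Pool.Agent.S10533

/-- For every d≥1 and k: if every finite disjoint unit-ball family in dimension d+1 whose (k+1)-subfamilies have line transversals has one, then the same holds in dimension d with k; i.e. the transversal Helly number strictly increases with d. -/
theorem result :
    ∀ d : ℕ, 1 ≤ d → ∀ k : ℕ,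
      (∀ S : Finset (EuclideanSpace ℝ (Fin (d + 1))),
        (∀ x ∈ S, ∀ y ∈ S, x ≠ y → 2 < dist x y) →
        (∀ T ⊆ S, T.card ≤ k + 1 →
          ∃ p v : EuclideanSpace ℝ (Fin (d + 1)), v ≠ 0 ∧
            ∀ c ∈ T, ∃ t : ℝ, dist (p + t • v) c ≤ 1) →
        ∃ p v : EuclideanSpace ℝ (Fin (d + 1)), v ≠ 0 ∧
          ∀ c ∈ S, ∃ t : ℝ, dist (p + t • v) c ≤ 1) →
      (∀ S : Finset (EuclideanSpace ℝ (Fin d)),
        (∀ x ∈ S, ∀ y ∈ S, x ≠ y → 2 < dist x y) →
        (∀ T ⊆ S, T.card ≤ k →
          ∃ p v : EuclideanSpace ℝ (Fin d), v ≠ 0 ∧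
            ∀ c ∈ T, ∃ t : ℝ, dist (p + t • v) c ≤ 1) →
        ∃ p v : EuclideanSpace ℝ (Fin d), v ≠ 0 ∧
          ∀ c ∈ S, ∃ t : ℝ, dist (p + t • v) c ≤ 1) := by
  intro d hd k hk S hsep hT
  rcases eq_or_lt_of_le hd with h1 | h2
  · -- dimension one
    subst h1
    refine ⟨0, EuclideanSpace.single 0 1, ?_, ?_⟩
    · intro h
      have := congrArg norm h
      simp at this
    · intro c _
      refine ⟨c 0, ?_⟩
      have : (0 : EuclideanSpace ℝ (Fin 1)) + (c 0) • EuclideanSpace.single 0 (1 : ℝ) = c := by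
        ext i
        have hi : i = 0 := Subsingleton.elim _ _
        rw [hi]
        simp
      rw [this, dist_self]
      norm_num
  · -- the known lower bound in dimension `d + 1`
    have hk4 : 4 * d - 1 ≤ k := by
      by_contra hcon
      rw [not_le] at hcon
      obtain ⟨S', hc, hdisj, hsub, hno⟩ :=
        Pool.Agent.Results.MP_a382a5_co.Lower.result (d + 1) (by omega)
      exact hno (hk S' hdisj (fun T hTS hTc => hsub T hTS (by omega)))
    exact Pool.Agent.H44.Danzer.upper_euclidean (by omega) S hsep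
      (fun T hTS hTc => hT T hTS (by omega))

end Pool.Agent.S10533
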