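import Pool.Statements.S13964
import Pool.Agent.H73.CE.Last

set_option autoImplicit false
open MeasureTheory
open Pool Pool.MP_ce3260_gt

namespace Pool.Agent.S13964

/-- The negation of the preceding statement: For every n ≥ 2, 0 ≤ i ≤ j ≤ n−1 and convex body K in ℝⁿ, κ_n^j Φ_i(K)^(n−j) ≤ κ_n^i Φ_j(K)^(n−i), with equality for i<j exactly when K is an ellipsoid; the Grassmannian average is computed via spans of Gaussian vectors. -/
theorem result :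
    ¬ (∀ n : ℕ, 2 ≤ n →
  ∀ κ : ℕ → ℝ, (∀ m : ℕ, κ m = (volume {x : Fin m → ℝ | ∑ t, x t ^ 2 ≤ 1}).toReal) →
  ∀ Φ : ℕ → Set (Fin n → ℝ) → ℝ,
   (∀ (i : ℕ) (K : Set (Fin n → ℝ)), Φ i K = κ n / κ (n - i) *
      (∫ A : Fin (n - i) → Fin n → ℝ,
        ((volume ((fun x : Fin n → ℝ => (Matrix.of A).mulVec x) '' K)).toReal /
            Real.sqrt ((Matrix.of A * (Matrix.of A).transpose).det)) ^ (-(n : ℝ))
        ∂(Measure.pi (fun _ : Fin (n - i) =>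
            Measure.pi (fun _ : Fin n => ProbabilityTheory.gaussianReal 0 1)))) ^ (-(1 : ℝ) / n)) →
  ∀ i j : ℕ, i ≤ j → j ≤ n - 1 →
  ∀ K : Set (Fin n → ℝ), IsCompact K → Convex ℝ K → (interior K).Nonempty →
    κ n ^ j * Φ i K ^ (n - j) ≤ κ n ^ i * Φ j K ^ (n - i) ∧
    (i < j → (κ n ^ j * Φ i K ^ (n - j) = κ n ^ i * Φ j K ^ (n - i) ↔
      ∃ M : Matrix (Fin n) (Fin n) ℝ, M.det ≠ 0 ∧ ∃ c : Fin n → ℝ,
        K = (fun x : Fin n → ℝ => M.mulVec x + c) '' {x : Fin n → ℝ | ∑ t, x t ^ 2 ≤ 1}))) := by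
  intro H
  have H1 := (H (4096 + 1) (by norm_num) Pool.Agent.H73.CE.kap (fun m => rfl)
    (fun i K => Pool.Agent.H73.CE.Phi (4096 + 1) Pool.Agent.H73.CE.kap (4096 + 1 - i) K)
    (fun i K => rfl) 4095 4096 (by norm_num) (by norm_num) (Pool.Agent.H73.CE.cyl 4096)
    (Pool.Agent.H73.CE.isCompact_cyl 4096) (Pool.Agent.H73.CE.convex_cyl 4096)
    (Pool.Agent.H73.CE.interior_cyl 4096)).1
  have e1 : 4096 + 1 - 4095 = 2 := rfl
  have e2 : 4096 + 1 - 4096 = 1 := rfl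
  rw [e1, e2] at H1
  exact Pool.Agent.H73.CE.last H1

end Pool.Agent.S13964
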