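import Pool.Statements.S14772
import Pool.Agent.H91.SchComp
import Pool.Graph.R_seed8.Helper446.LS.WPB

set_option autoImplicit false
open Pool Pool.MP_5f7953_lc

namespace Pool.Agent.S14772

/-- The negation of the preceding statement: There is an algorithm that, given a word B, decides whether in every group every word lies in the smallest word set containing the variables and B, closed under substitution and under replacement by words identically equal on that group. -/
theorem result :
    ¬ (ComputablePred (fun w : List (ℕ × Bool) =>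
    ∀ (G : Type) [Group G], ∀ A : FreeGroup ℕ,
      ∀ S : Set (FreeGroup ℕ),
        (∀ i : ℕ, FreeGroup.of i ∈ S) →
        FreeGroup.mk w ∈ S →
        (∀ C ∈ S, ∀ σ : ℕ → FreeGroup ℕ, (∀ i, σ i ∈ S) → FreeGroup.lift σ C ∈ S) →
        (∀ C ∈ S, ∀ C' : FreeGroup ℕ,
            (∀ f : ℕ → G, FreeGroup.lift f C = FreeGroup.lift f C') → C' ∈ S) →
        A ∈ S)) := by
  intro hc
  obtain ⟨m, R, W, hW, hu⟩ := Pool.Agent.Helper446.LS.WP.word_problem
  apply hu
  have hf : Computable fun n => Pool.Agent.H91.SchComp.wd m R (W n) :=
    (Pool.Agent.H91.SchComp.primrec_wd m R).to_comp.comp hW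
  have h1 : ComputablePred fun n => Pool.Agent.H91.SchComp.Sch
      (Pool.Agent.H91.SchComp.wd m R (W n)) :=
    ComputablePred.computable_of_manyOneReducible
      (p := fun n => Pool.Agent.H91.SchComp.Sch (Pool.Agent.H91.SchComp.wd m R (W n)))
      (q := Pool.Agent.H91.SchComp.Sch) ⟨_, hf, fun n => Iff.rfl⟩ hc
  refine h1.of_eq fun n => ?_
  exact Pool.Agent.H91.SchComp.sch_iff m R (W n)

end Pool.Agent.S14772
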